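import Mathlib

open Filter Topology Set
open scoped RealInnerProductSpace

namespace Pool.Agent.Results.MP_7a7a2a_an.Jam

section Defs
variable {E : Type} [NormedAddCommGroup E] [InnerProductSpace ℝ E] [CompleteSpace E]

/-- Bouligand tangent cone -/
def Tan (X : Set E) (x : E) : Set E :=
  {v | ∃ (t : ℕ → ℝ) (w : ℕ → E), (∀ k, 0 < t k) ∧ Antitone t ∧ Tendsto t atTop (𝓝 0) ∧
    Tendsto w atTop (𝓝 v) ∧ ∀ k, x + t k • w k ∈ X}

/-- p is a nearest point of K to w -/
def IsProj (K : Set E) (w p : E) : Prop := p ∈ K ∧ ∀ q ∈ K, ‖w - p‖ ≤ ‖w - q‖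

def Stationary (X : Set E) (f : E → ℝ) (x : E) : Prop := ∀ v ∈ Tan X x, 0 ≤ ⟪gradient f x, v⟫

/-- no apocalypse, for any f that is C¹ near X; the norm of p k is s_f (x k) -/
def ApocalypseFree (X : Set E) : Prop :=
  ∀ f : E → ℝ, (∃ U, IsOpen U ∧ X ⊆ U ∧ ContDiffOn ℝ 1 f U) → ∀ (x : ℕ → E) (z : E) (p : ℕ → E),
    (∀ k, x k ∈ X) → Tendsto x atTop (𝓝 z) →
    (∀ k, IsProj (Tan X (x k)) (-gradient f (x k)) (p k)) →
    Tendsto (fun k => ‖p k‖) atTop (𝓝 0) → Stationary X f z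

/-- P2GD iterates x with directions p, trial points y k j and accepted indices j k -/
structure P2GD (X : Set E) (f : E → ℝ) (a β c : ℝ) (x p : ℕ → E) (y : ℕ → ℕ → E)
    (j : ℕ → ℕ) : Prop where
  start : x 0 ∈ X
  dir : ∀ k, IsProj (Tan X (x k)) (-gradient f (x k)) (p k)
  trial : ∀ k i, IsProj X (x k + (a * β ^ i) • p k) (y k i)
  accept : ∀ k, f (y k (j k)) ≤ f (x k) - c * (a * β ^ j k) * ‖p k‖ ^ 2
  reject : ∀ k, ∀ i < j k, ¬ f (y k i) ≤ f (x k) - c * (a * β ^ i) * ‖p k‖ ^ 2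
  step : ∀ k, x (k + 1) = y k (j k)

omit [CompleteSpace E] in
lemma tan_of_convex {X : Set E} (hX : Convex ℝ X) {x y : E} (hx : x ∈ X) (hy : y ∈ X) :
    y - x ∈ Tan X x := by
  refine ⟨fun k => 1 / ((k : ℝ) + 1), fun _ => y - x, fun k => by positivity, ?_,
    tendsto_one_div_add_atTop_nhds_zero_nat, tendsto_const_nhds, fun k => ?_⟩
  · intro a b hab
    exact one_div_le_one_div_of_le (by positivity) (by simpa using hab)
  · exact hX.add_smul_sub_mem hx hy ⟨by positivity, by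
      rw [div_le_one (by positivity)]; linarith [(Nat.cast_nonneg k : (0 : ℝ) ≤ k)]⟩

lemma free_of_convex {X : Set E} (hX : Convex ℝ X) (hc : IsClosed X) : ApocalypseFree X := by
  rintro f ⟨U, hU, hXU, hf⟩ x z p hx hz hp h0
  have hzX : z ∈ X := hc.mem_of_tendsto hz (Eventually.of_forall hx)
  have hg : Tendsto (fun k => gradient f (x k)) atTop (𝓝 (gradient f z)) := by
    have h1 := (hf.continuousOn_fderiv_of_isOpen hU le_rfl).continuousAt (hU.mem_nhds (hXU hzX))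
    exact (((InnerProductSpace.toDual ℝ E).symm.continuous.continuousAt.comp h1).tendsto).comp hz
  have hp0 : Tendsto p atTop (𝓝 0) := tendsto_zero_iff_norm_tendsto_zero.2 h0
  have h1 : ∀ y ∈ X, ‖-gradient f z - 0‖ ≤ ‖-gradient f z - (y - z)‖ := fun y hy =>
    le_of_tendsto_of_tendsto' (hg.neg.sub hp0).norm
      (hg.neg.sub (tendsto_const_nhds.sub hz)).norm
      (fun k => (hp k).2 _ (tan_of_convex hX (hx k) hy))
  rintro v ⟨t, w, ht, -, ht0, hw, hm⟩
  have h2 : ∀ k, 0 ≤ 2 * ⟪gradient f z, w k⟫ + t k * ‖w k‖ ^ 2 := by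
    intro k
    have h3 := pow_le_pow_left₀ (norm_nonneg _) (h1 _ (hm k)) 2
    rw [add_sub_cancel_left, sub_zero, ← neg_add', norm_neg, norm_neg, norm_add_sq_real,
      inner_smul_right, norm_smul, mul_pow, Real.norm_eq_abs, sq_abs] at h3
    have h4 : 0 ≤ t k * (2 * ⟪gradient f z, w k⟫ + t k * ‖w k‖ ^ 2) := by nlinarith
    exact (mul_nonneg_iff_of_pos_left (ht k)).1 h4
  have h3 := ge_of_tendsto' (((tendsto_const_nhds.inner (𝕜 := ℝ) hw).const_mul 2).add
    (ht0.mul (hw.norm.pow 2))) h2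
  linarith

end Defs

abbrev E := EuclideanSpace ℝ (Fin 2)

def X : Set E := {x | 0 ≤ x 0 ∧ 0 ≤ x 1}

noncomputable def g : E := !₂[1 / 2, 1]

noncomputable def f (x : E) : ℝ := ⟪g, x⟫

lemma f_eq (x : E) : f x = x 0 / 2 + x 1 := by
  simp [f, g, PiLp.inner_apply, Fin.sum_univ_two]; ring

lemma grad (x : E) : gradient f x = g := by
  apply HasGradientAt.gradient
  rw [hasGradientAt_iff_hasFDerivAt]
  exact (InnerProductSpace.toDual ℝ E g).hasFDerivAt

lemma conv : Convex ℝ X := by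
  intro x hx y hy a b ha hb _
  have := hx.1; have := hx.2; have := hy.1; have := hy.2
  constructor <;> simp <;> positivity

lemma closed : IsClosed X :=
  (isClosed_le (f := fun _ : E => (0 : ℝ)) (g := fun x => x 0) continuous_const (by fun_prop)).inter
    (isClosed_le (f := fun _ : E => (0 : ℝ)) (g := fun x => x 1) continuous_const (by fun_prop))

noncomputable def x (k : ℕ) : E := !₂[1 + 2 / 3 * (1 / 4) ^ k, 4 / 3 * (1 / 4) ^ k]

noncomputable def y (k i : ℕ) : E :=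
  !₂[x k 0 - (1 / 4) ^ i / 2, max (x k 1 - (1 / 4) ^ i) 0]

lemma gsq : ‖-g‖ ^ 2 = 5 / 4 := by
  rw [norm_neg, EuclideanSpace.real_norm_sq_eq]; simp [g, Fin.sum_univ_two]; norm_num

lemma run : P2GD X f 1 (1 / 4) (1 / 2) x (fun _ => -g) y id := by
  have hq : ∀ k : ℕ, 0 < (1 / 4 : ℝ) ^ k := fun k => by positivity
  have hq1 : ∀ k : ℕ, (1 / 4 : ℝ) ^ k ≤ 1 := fun k => pow_le_one₀ (by norm_num) (by norm_num)
  refine ⟨by simp [X, x]; norm_num, fun k => ⟨?_, fun q _ => by simp [grad]⟩, fun k i => ⟨?_, ?_⟩,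
    fun k => ?_, fun k i hi => ?_, fun k => ?_⟩
  · refine ⟨fun n => (1 / 4) ^ (n + k), fun _ => -g, fun n => hq _, ?_, ?_, tendsto_const_nhds,
      fun n => ?_⟩
    · intro a b hab
      exact pow_le_pow_of_le_one (by norm_num) (by norm_num) (by omega)
    · exact (tendsto_pow_atTop_nhds_zero_of_lt_one (by norm_num) (by norm_num)).comp
        (tendsto_add_atTop_nat k)
    · have h1 : (1 / 4 : ℝ) ^ (n + k) ≤ (1 / 4) ^ k :=
        pow_le_pow_of_le_one (by norm_num) (by norm_num) (by omega)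
      have := hq k
      have := hq1 k
      constructor <;> simp [x, g, -one_div] <;> linarith
  · have := hq k
    have := hq1 i
    constructor <;> simp [x, y, -one_div]
    linarith
  · intro q hq'
    rw [← pow_le_pow_iff_left₀ (norm_nonneg _) (norm_nonneg _) two_ne_zero,
      EuclideanSpace.real_norm_sq_eq, EuclideanSpace.real_norm_sq_eq]
    simp only [Fin.sum_univ_two, y, g]
    simp [-one_div]
    have h1 := hq'.2
    set s := x k 1 + -(1 / 4 : ℝ) ^ i with hs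
    have h2 : x k 1 - (1 / 4 : ℝ) ^ i = s := by rw [hs]; ring
    rw [h2]
    rcases le_total s 0 with h | h
    · rw [max_eq_right h]
      nlinarith [sq_nonneg (x k 0 + -((1 / 4 : ℝ) ^ i * (1 / 2)) - q 0)]
    · rw [max_eq_left h]
      nlinarith [sq_nonneg (x k 0 + -((1 / 4 : ℝ) ^ i * (1 / 2)) - q 0), sq_nonneg (s - q 1)]
  · have := hq k
    rw [gsq, f_eq, f_eq]
    simp [x, y, -one_div]
    rw [max_eq_left (by linarith)]; linarith
  · have h1 : (1 / 4 : ℝ) ^ k ≤ (1 / 4) ^ (i + 1) :=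
      pow_le_pow_of_le_one (by norm_num) (by norm_num) hi
    rw [pow_succ] at h1
    have := hq k
    rw [gsq, f_eq, f_eq]
    simp [x, y, -one_div]
    rw [max_eq_right (by linarith)]; linarith
  · have := hq k
    ext i
    fin_cases i
    · simp [x, y, pow_succ, -one_div]; ring
    · simp [x, y, pow_succ, -one_div]
      rw [max_eq_left (by linarith)]; ring

theorem result : ∃ (X : Set (EuclideanSpace ℝ (Fin 2))) (f : EuclideanSpace ℝ (Fin 2) → ℝ)
    (a β c : ℝ) (x p : ℕ → EuclideanSpace ℝ (Fin 2)) (y : ℕ → ℕ → EuclideanSpace ℝ (Fin 2))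
    (j : ℕ → ℕ) (z : EuclideanSpace ℝ (Fin 2)),
    X.Nonempty ∧ IsClosed X ∧ ApocalypseFree X ∧ ContDiff ℝ ⊤ f ∧
    (∃ L, LipschitzWith L (gradient f)) ∧ Bornology.IsBounded {w ∈ X | f w ≤ f (x 0)} ∧
    0 < a ∧ β ∈ Ioo (0 : ℝ) 1 ∧ c ∈ Ioo (0 : ℝ) 1 ∧ P2GD X f a β c x p y j ∧
    Tendsto x atTop (𝓝 z) ∧ z ∈ X ∧ ¬ Stationary X f z := by
  refine ⟨X, f, 1, 1 / 4, 1 / 2, x, fun _ => -g, y, id, !₂[1, 0], ⟨0, by simp [X]⟩, closed,
    free_of_convex conv closed, contDiff_const.inner ℝ contDiff_id, ⟨0, ?_⟩, ?_, one_pos,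
    by norm_num, by norm_num, run, ?_, by simp [X], fun h => ?_⟩
  · rw [show gradient f = fun _ => g from funext grad]; exact LipschitzWith.const _
  · refine (Metric.isBounded_closedBall (x := (0 : E)) (r := 10)).subset fun w hw => ?_
    obtain ⟨⟨h1, h2⟩, h3⟩ := hw
    rw [f_eq, f_eq] at h3
    simp [x] at h3
    rw [mem_closedBall_zero_iff, ← pow_le_pow_iff_left₀ (norm_nonneg _) (by norm_num) two_ne_zero,
      EuclideanSpace.real_norm_sq_eq, Fin.sum_univ_two]
    nlinarith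
  · have h := tendsto_pow_atTop_nhds_zero_of_lt_one (r := (1 / 4 : ℝ)) (by norm_num) (by norm_num)
    have : x = fun k => !₂[(1 : ℝ), 0] + (1 / 4 : ℝ) ^ k • !₂[2 / 3, 4 / 3] := by
      ext k i; fin_cases i <;> simp [x, -one_div] <;> ring
    rw [this]
    simpa using (h.smul_const (!₂[2 / 3, 4 / 3] : E)).const_add !₂[(1 : ℝ), 0]
  · have := h _ (tan_of_convex conv (y := 0) (by simp [X]) (by simp [X]))
    rw [grad] at this
    simp [g, PiLp.inner_apply, Fin.sum_univ_two] at this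
    norm_num at this

end Pool.Agent.Results.MP_7a7a2a_an.Jam
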